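import Mathlib

/-!
# A single set on which a linear form has a much larger image than all other linear forms

For a primitive linear form `f` in `m` variables with nonzero coefficients and for all `C`, `N` there
is one finite set `A` of integers with `C |g(A)| < |f(A)|` for all linear forms `g` in `m` variables
with coefficients of absolute value at most `N` (zero coefficients are allowed) which are not of the
form `c f(x_σ(1), ..., x_σ(m))`.
-/

set_option autoImplicit false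

namespace Pool.Agent.Results.MP_07add5_co.OneSetForAllForms

open Finset

/-- The image `u(A)` of the set `A` under the linear form with the coefficients `u`. -/
def img {m : ℕ} (u : Fin m → ℤ) (A : Finset ℤ) : Finset ℤ :=
  (Fintype.piFinset fun _ : Fin m => A).image (fun a : Fin m → ℤ => ∑ i, u i * a i)

lemma ker {m : ℕ} (u v : Fin m → ℤ) (hu : ∀ i, u i ≠ 0) (gu : univ.gcd u = 1) (hm : 0 < m)
    (hne : ¬ ∃ (σ : Equiv.Perm (Fin m)) (c : ℤ), c ≠ 0 ∧ ∀ i, v i = c * u (σ i))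
    (ι : Fin m → Fin m) (L : Finset (Fin m)) :
    ∃ z : Fin m → ℤ, ∑ l ∈ L, v l * z (ι l) = 0 ∧ ∑ i, u i * z i ≠ 0 := by
  by_contra hcon
  push Not at hcon
  let w : Fin m → ℤ := fun i => ∑ l ∈ L.filter (fun l => ι l = i), v l
  have hw : ∀ z : Fin m → ℤ, ∑ l ∈ L, v l * z (ι l) = ∑ i, w i * z i := by
    intro z
    rw [← sum_fiberwise L ι]
    refine sum_congr rfl fun i _ => ?_
    rw [sum_mul]
    exact sum_congr rfl fun l hl => by rw [(mem_filter.mp hl).2]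
  have h1 : ∀ i, w i ≠ 0 := by
    intro i hi
    have := hcon (Pi.single i 1) (by rw [hw]; simp [Pi.single_apply, hi])
    exact hu i (by simpa [Pi.single_apply] using this)
  have h2 : ∀ i j, u i * w j = u j * w i := by
    intro i j
    have := hcon (Pi.single i (w j) - Pi.single j (w i)) (by
      rw [hw]
      simp only [Pi.sub_apply, mul_sub, sum_sub_distrib, Pi.single_apply, mul_ite, mul_zero,
        sum_ite_eq', mem_univ, if_true]
      ring)
    simp only [Pi.sub_apply, mul_sub, sum_sub_distrib, Pi.single_apply, mul_ite, mul_zero,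
      sum_ite_eq', mem_univ, if_true] at this
    linarith
  have h3 : ∀ i, ∃ l ∈ L, ι l = i := by
    intro i
    obtain ⟨l, hl, -⟩ := exists_ne_zero_of_sum_ne_zero (h1 i)
    exact ⟨l, (mem_filter.mp hl).1, (mem_filter.mp hl).2⟩
  have hs : Function.Surjective ι := fun i => (h3 i).imp fun _ h => h.2
  have hi : Function.Injective ι := Finite.injective_iff_surjective.mpr hs
  have h4 : ∀ l, w (ι l) = v l := by
    intro l
    obtain ⟨l', hl', e⟩ := h3 (ι l)
    obtain rfl := hi e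
    have : L.filter (fun l => ι l = ι l') = {l'} := by
      ext a; simp only [mem_filter, mem_singleton]
      exact ⟨fun h => hi h.2, fun h => by rw [h]; exact ⟨hl', rfl⟩⟩
    simp only [w, this, sum_singleton]
  have h5 : ∀ l l', u (ι l) * v l' = u (ι l') * v l := fun l l' => by
    rw [← h4, ← h4 l]; exact h2 _ _
  obtain ⟨l0⟩ : Nonempty (Fin m) := ⟨⟨0, hm⟩⟩
  have d2 : u (ι l0) ∣ v l0 := by
    have : u (ι l0) ∣ univ.gcd (fun i => v l0 * u i) := dvd_gcd fun i _ => by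
      obtain ⟨l, rfl⟩ := hs i
      exact ⟨v l, by rw [h5, mul_comm]⟩
    rwa [Finset.gcd_mul_left, gu, mul_one, dvd_normalize_iff] at this
  obtain ⟨c, hc⟩ := d2
  refine hne ⟨Equiv.ofBijective ι ⟨hi, hs⟩, c, ?_, fun l => ?_⟩
  · rintro rfl
    exact h1 (ι l0) (by rw [h4, hc, mul_zero])
  · refine mul_left_cancel₀ (hu (ι l0)) ?_
    rw [h5, hc]
    change u (ι l) * (u (ι l0) * c) = u (ι l0) * (c * u (ι l))
    ring

structure St {m : ℕ} (u : Fin m → ℤ) (δ : ℝ) where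
  n : ℕ
  X : ℤ → Fin m → ℤ
  P : Finset ℕ
  pos : 0 < n
  per : ∀ t t', t ≡ t' [ZMOD n] → ∀ i, X t i ≡ X t' i [ZMOD n]
  fu : ∀ t, ∑ i, u i * X t i ≡ t [ZMOD n]
  dv : ∀ p ∈ P, p ∣ n
  sm : ∑ p ∈ P, (1 / p : ℝ) < δ

variable {m : ℕ} {u : Fin m → ℤ} {δ : ℝ}

def Ext (S S' : St u δ) : Prop :=
  S.n ∣ S'.n ∧ S.P ⊆ S'.P ∧ ∀ t i, S'.X t i ≡ S.X t i [ZMOD S.n]

lemma Ext.refl (S : St u δ) : Ext S S := ⟨dvd_rfl, Subset.rfl, fun _ _ => rfl⟩

lemma Ext.trans {S S' S'' : St u δ} (h : Ext S S') (h' : Ext S' S'') : Ext S S'' :=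
  ⟨h.1.trans h'.1, h.2.1.trans h'.2.1, fun t i =>
    ((h'.2.2 t i).of_dvd (Int.natCast_dvd_natCast.mpr h.1)).trans (h.2.2 t i)⟩

lemma Ext.good {S S' : St u δ} (h : Ext S S') (v : Fin m → ℤ) (t : Fin m → ℤ) (ι : Fin m → Fin m)
    {p : ℕ} (hp : p ∈ S.P) (hd : (p : ℤ) ∣ ∑ l, v l * S.X (t l) (ι l)) :
    (p : ℤ) ∣ ∑ l, v l * S'.X (t l) (ι l) := by
  have : ∑ l, v l * S'.X (t l) (ι l) ≡ ∑ l, v l * S.X (t l) (ι l) [ZMOD p] :=
    Int.ModEq.sum fun l _ =>
      ((h.2.2 _ _).of_dvd (Int.natCast_dvd_natCast.mpr (S.dv p hp))).mul_left _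
  exact (Int.modEq_zero_iff_dvd).mp (this.trans ((Int.modEq_zero_iff_dvd).mpr hd))

lemma step1 (S : St u δ) (Z : Finset (Fin m) → Fin m → ℤ) (hZ : ∀ L, ∑ i, u i * Z L i ≠ 0)
    (τ : ℤ → Finset (Fin m)) (hτ : ∀ t t', t ≡ t' [ZMOD S.n] → τ t = τ t') :
    ∃ S' : St u δ, Ext S S' ∧ ∃ p ∈ S'.P, ∀ t, ∃ c, ∀ i, S'.X t i ≡ c * Z (τ t) i [ZMOD p] := by
  classical
  obtain ⟨K, hK⟩ := exists_nat_one_div_lt (sub_pos.mpr S.sm)
  obtain ⟨M, hM⟩ : ∃ M : ℕ, M = (∏ L, ∑ i, u i * Z L i).natAbs := ⟨_, rfl⟩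
  have hM0 : 0 < M := hM ▸ Int.natAbs_pos.mpr (prod_ne_zero_iff.mpr fun L _ => hZ L)
  obtain ⟨p, hp⟩ : ∃ p : ℕ, p = 1 + K * S.n * M := ⟨_, rfl⟩
  have hpK : K + 1 ≤ p := by
    have : K ≤ K * (S.n * M) := Nat.le_mul_of_pos_right _ (Nat.mul_pos S.pos hM0)
    rw [hp, mul_assoc]; omega
  have hD : ∀ L, ∃ e : ℤ, (∑ i, u i * Z L i) * e ≡ 1 [ZMOD p] := by
    intro L
    obtain ⟨a, ha⟩ : (∑ i, u i * Z L i) ∣ (M : ℤ) :=
      hM ▸ Int.dvd_natAbs.mpr (dvd_prod_of_mem _ (mem_univ L))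
    refine ⟨-(K * S.n * a), (Int.modEq_iff_dvd).mpr ⟨1, ?_⟩⟩
    rw [hp]; push_cast; rw [ha]; ring
  choose e he using hD
  have hco : ((S.n : ℤ)).natAbs.Coprime (p : ℤ).natAbs := by
    simp only [Int.natAbs_natCast]
    rw [hp, show K * S.n * M = S.n * (K * M) by ring]
    simp
  let X' : ℤ → Fin m → ℤ := fun t i =>
    S.X t i * p - (K * S.n * M) * (t * e (τ t) * Z (τ t) i)
  have a1 : ∀ t i, X' t i ≡ S.X t i [ZMOD S.n] := fun t i =>
    (Int.modEq_iff_dvd).mpr ⟨K * M * (t * e (τ t) * Z (τ t) i - S.X t i), by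
      simp only [X']; rw [hp]; push_cast; ring⟩
  have a2 : ∀ t i, X' t i ≡ t * e (τ t) * Z (τ t) i [ZMOD p] := fun t i =>
    (Int.modEq_iff_dvd).mpr ⟨t * e (τ t) * Z (τ t) i - S.X t i, by
      simp only [X']; rw [hp]; push_cast; ring⟩
  have crt : ∀ a b : ℤ, a ≡ b [ZMOD S.n] → a ≡ b [ZMOD p] → a ≡ b [ZMOD (S.n * p : ℕ)] := by
    intro a b h1 h2
    push_cast
    exact (Int.modEq_and_modEq_iff_modEq_mul hco).mp ⟨h1, h2⟩
  refine ⟨⟨S.n * p, X', insert p S.P, Nat.mul_pos S.pos (by omega), fun t t' h i => ?_, fun t => ?_,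
    fun q hq => ?_, ?_⟩, ⟨Dvd.intro _ rfl, subset_insert _ _, a1⟩, p, mem_insert_self _ _,
    fun t => ⟨t * e (τ t), a2 t⟩⟩
  · have h1 : t ≡ t' [ZMOD S.n] := h.of_dvd (Int.natCast_dvd_natCast.mpr (Dvd.intro _ rfl))
    have h2 : t ≡ t' [ZMOD p] := h.of_dvd (Int.natCast_dvd_natCast.mpr (Dvd.intro_left _ rfl))
    refine crt _ _ ((a1 t i).trans ((S.per t t' h1 i).trans (a1 t' i).symm))
      ((a2 t i).trans (Int.ModEq.trans ?_ (a2 t' i).symm))
    rw [hτ t t' h1]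
    exact (h2.mul_right _).mul_right _
  · refine crt _ _ ((Int.ModEq.sum fun i _ => (a1 t i).mul_left _).trans (S.fu t))
      ((Int.ModEq.sum fun i _ => (a2 t i).mul_left (u i)).trans ?_)
    have : ∑ i, u i * (t * e (τ t) * Z (τ t) i) = t * ((∑ i, u i * Z (τ t) i) * e (τ t)) := by
      rw [sum_mul, mul_sum]; exact sum_congr rfl fun i _ => by ring
    rw [this]
    simpa using (he (τ t)).mul_left t
  · rcases mem_insert.mp hq with rfl | hq
    · exact Dvd.intro_left _ rfl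
    · exact (S.dv q hq).mul_right _
  · have h1 : (1 / p : ℝ) ≤ 1 / (K + 1) :=
      one_div_le_one_div_of_le (by positivity) (by exact_mod_cast hpK)
    by_cases hq : p ∈ S.P
    · rw [insert_eq_of_mem hq]; exact S.sm
    · rw [sum_insert hq]; linarith

def H (v : Fin m → ℤ) (q : ℕ) (S : St u δ) (π : (Fin m → ℤ) × (Fin m → Fin m)) : Prop :=
  ∃ p ∈ S.P, ∀ t : Fin m → ℤ, (∀ l, t l % q = π.1 l) →
    (∀ l l', π.1 l = π.1 l' → t l ≡ t l' [ZMOD S.n]) → (p : ℤ) ∣ ∑ l, v l * S.X (t l) (π.2 l)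

lemma step2 (v : Fin m → ℤ) (hk : ∀ (ι : Fin m → Fin m) (L : Finset (Fin m)),
      ∃ z : Fin m → ℤ, ∑ l ∈ L, v l * z (ι l) = 0 ∧ ∑ i, u i * z i ≠ 0)
    (S0 : St u δ) (F : Finset ((Fin m → ℤ) × (Fin m → Fin m))) :
    ∃ S : St u δ, Ext S0 S ∧ ∀ π ∈ F, H v S0.n S π := by
  classical
  induction F using Finset.induction_on with
  | empty => exact ⟨S0, Ext.refl _, by simp⟩
  | insert π F _ ih =>
    obtain ⟨S, hS, hF⟩ := ih
    choose Z hZ1 hZ2 using hk π.2
    obtain ⟨S', hS', p, hp, hc⟩ := step1 S Z hZ2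
      (fun t => univ.filter (fun l => π.1 l = t % S0.n)) (fun t t' h => by
        have : t % S0.n = t' % S0.n := h.of_dvd (Int.natCast_dvd_natCast.mpr hS.1)
        rw [this])
    refine ⟨S', hS.trans hS', fun π' hπ' => ?_⟩
    rcases mem_insert.mp hπ' with rfl | hπ'
    · refine ⟨p, hp, fun t h1 h2 => ?_⟩
      rw [← sum_fiberwise_of_maps_to (s := univ) (t := univ.image π'.1) (g := π'.1)
        (fun l hl => mem_image_of_mem _ hl)]
      refine dvd_sum fun ρ hρ => ?_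
      obtain ⟨l0, -, rfl⟩ := mem_image.mp hρ
      obtain ⟨c, hc⟩ := hc (t l0)
      rw [h1 l0] at hc
      have h3 : ∑ l ∈ univ.filter (fun l => π'.1 l = π'.1 l0), v l * S'.X (t l) (π'.2 l) ≡
          ∑ l ∈ univ.filter (fun l => π'.1 l = π'.1 l0),
            v l * (c * Z (univ.filter (fun l => π'.1 l = π'.1 l0)) (π'.2 l)) [ZMOD p] :=
        Int.ModEq.sum fun l hl => (((S'.per _ _ (h2 l l0 (mem_filter.mp hl).2) _).of_dvd
          (Int.natCast_dvd_natCast.mpr (S'.dv p hp))).trans (hc _)).mul_left _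
      have h4 : ∑ l ∈ univ.filter (fun l => π'.1 l = π'.1 l0),
            v l * (c * Z (univ.filter (fun l => π'.1 l = π'.1 l0)) (π'.2 l)) = 0 := by
        rw [← mul_zero c, ← hZ1 (univ.filter (fun l => π'.1 l = π'.1 l0)), mul_sum]
        exact sum_congr rfl fun i _ => by ring
      rw [h4] at h3
      exact (Int.modEq_zero_iff_dvd).mp h3
    · obtain ⟨q, hq, h⟩ := hF π' hπ'
      exact ⟨q, hS'.2.1 hq, fun t h1 h2 => hS'.good v t _ hq (h t h1 fun l l' e =>
        (h2 l l' e).of_dvd (Int.natCast_dvd_natCast.mpr hS'.1))⟩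

open Classical in
noncomputable def cp (n : ℕ) (t : Fin m → ℤ) : Finset (Fin m × Fin m) :=
  univ.filter (fun a => t a.1 ≡ t a.2 [ZMOD n])

lemma level (v : Fin m → ℤ) (hk : ∀ (ι : Fin m → Fin m) (L : Finset (Fin m)),
      ∃ z : Fin m → ℤ, ∑ l ∈ L, v l * z (ι l) = 0 ∧ ∑ i, u i * z i ≠ 0) (S1 : St u δ) (r : ℕ) :
    ∃ S : St u δ, Ext S1 S ∧
      ∀ (t : Fin m → ℤ) (ι : Fin m → Fin m), m * m < (cp S.n t).card + r →
        ∃ p ∈ S.P, (p : ℤ) ∣ ∑ l, v l * S.X (t l) (ι l) := by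
  classical
  induction r with
  | zero =>
    refine ⟨S1, Ext.refl _, fun t ι h => ?_⟩
    exfalso
    have := card_le_univ (cp S1.n t)
    simp only [Fintype.card_prod, Fintype.card_fin] at this
    omega
  | succ r ih =>
    obtain ⟨S0, h01, h0⟩ := ih
    obtain ⟨S, hS, hF⟩ := step2 v hk S0
      ((Fintype.piFinset fun _ : Fin m => Ico (0 : ℤ) S0.n) ×ˢ univ)
    refine ⟨S, h01.trans hS, fun t ι h => ?_⟩
    by_cases h1 : m * m < (cp S0.n t).card + r
    · obtain ⟨p, hp, hd⟩ := h0 t ι h1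
      exact ⟨p, hS.2.1 hp, hS.good v t ι hp hd⟩
    · have h2 : cp S.n t = cp S0.n t := eq_of_subset_of_card_le (fun a ha => mem_filter.mpr
        ⟨mem_univ _, (mem_filter.mp ha).2.of_dvd (Int.natCast_dvd_natCast.mpr hS.1)⟩) (by omega)
      have hn : (0 : ℤ) < S0.n := by exact_mod_cast S0.pos
      obtain ⟨p, hp, h3⟩ := hF (fun l => t l % S0.n, ι) (mem_product.mpr ⟨Fintype.mem_piFinset.mpr
        fun l => mem_Ico.mpr ⟨Int.emod_nonneg _ hn.ne', Int.emod_lt_of_pos _ hn⟩, mem_univ _⟩)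
      refine ⟨p, hp, h3 t (fun _ => rfl) fun l l' e => ?_⟩
      have h4 : (l, l') ∈ cp S0.n t := mem_filter.mpr ⟨mem_univ _, e⟩
      rw [← h2] at h4
      exact (mem_filter.mp h4).2

/-- One structure which is good for all the forms of a finite family. -/
lemma all_level (hδ : 0 < δ) (F : Finset (Fin m → ℤ))
    (hk : ∀ v ∈ F, ∀ (ι : Fin m → Fin m) (L : Finset (Fin m)),
      ∃ z : Fin m → ℤ, ∑ l ∈ L, v l * z (ι l) = 0 ∧ ∑ i, u i * z i ≠ 0) :
    ∃ S : St u δ, ∀ v ∈ F, ∀ (t : Fin m → ℤ) (ι : Fin m → Fin m),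
      ∃ p ∈ S.P, (p : ℤ) ∣ ∑ l, v l * S.X (t l) (ι l) := by
  classical
  induction F using Finset.induction_on with
  | empty =>
    exact ⟨⟨1, fun _ _ => 0, ∅, one_pos, fun _ _ _ _ => rfl, fun t => Int.modEq_one, by simp,
      by simpa⟩, by simp⟩
  | insert v F _ ih =>
    obtain ⟨S0, h0⟩ := ih fun v' hv' => hk v' (mem_insert_of_mem hv')
    obtain ⟨S, hS, h1⟩ := level v (hk v (mem_insert_self _ _)) S0 (m * m + 1)
    refine ⟨S, fun v' hv' t ι => ?_⟩
    rcases mem_insert.mp hv' with rfl | hv'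
    · exact h1 t ι (by omega)
    · obtain ⟨p, hp, hd⟩ := h0 v' hv' t ι
      exact ⟨p, hS.2.1 hp, hS.good v' t ι hp hd⟩

/-- **One set for all forms.** Let `f = u_1 x_1 + ... + u_m x_m` (`m ≥ 1`) have nonzero integer
coefficients with greatest common divisor `1`. For all `C` and `N` there is a finite set `A` of
integers such that `C |g(A)| < |f(A)|` for every linear form `g = v_1 x_1 + ... + v_m x_m` with
integer coefficients `|v_i| ≤ N` (some of which may be zero), except for those with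
`v_i = c u_σ(i)` for a permutation `σ` and an integer `c ≠ 0`. -/
theorem result (m : ℕ) (hm : 1 ≤ m) (u : Fin m → ℤ) (hu : ∀ i, u i ≠ 0)
    (gu : Finset.univ.gcd u = 1) (C N : ℕ) :
    ∃ A : Finset ℤ, ∀ v : Fin m → ℤ, (∀ i, |v i| ≤ N) →
      (¬ ∃ (σ : Equiv.Perm (Fin m)) (c : ℤ), c ≠ 0 ∧ ∀ i, v i = c * u (σ i)) →
      C * (img v A).card < (img u A).card := by
  classical
  obtain ⟨V, hV⟩ : ∃ V : ℕ, V = m * N := ⟨_, rfl⟩
  let F : Finset (Fin m → ℤ) := (Fintype.piFinset fun _ : Fin m => Icc (-(N : ℤ)) N).filter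
    fun v => ¬ ∃ (σ : Equiv.Perm (Fin m)) (c : ℤ), c ≠ 0 ∧ ∀ i, v i = c * u (σ i)
  obtain ⟨S, hS⟩ := all_level (u := u) (δ := 1 / ((C + 1) * (2 * V + 1))) (by positivity) F
    (fun v hv => ker u v hu gu (by omega) (mem_filter.mp hv).2)
  have hn : (0 : ℤ) < S.n := by exact_mod_cast S.pos
  let A : Finset ℤ := ((Ico (0 : ℤ) S.n) ×ˢ (univ : Finset (Fin m))).image
    (fun a => S.X a.1 a.2 % S.n)
  refine ⟨A, fun v hv hne => lt_of_lt_of_le (b := S.n) ?_ ?_⟩
  · have hvF : v ∈ F := mem_filter.mpr ⟨Fintype.mem_piFinset.mpr fun i =>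
      mem_Icc.mpr (abs_le.mp (hv i)), hne⟩
    have h1 : img v A ⊆
        S.P.biUnion (fun p => (Icc (-(V * (S.n / p : ℕ) : ℤ)) (V * (S.n / p : ℕ))).image
          (fun j => (p : ℤ) * j)) := by
      intro c hc
      obtain ⟨a, ha, rfl⟩ := mem_image.mp hc
      have h2 : ∀ l, ∃ b : ℤ × Fin m, S.X b.1 b.2 % S.n = a l := fun l =>
        (mem_image.mp (Fintype.mem_piFinset.mp ha l)).imp fun _ h => h.2
      choose b hb using h2
      obtain ⟨p, hp, hd⟩ := hS v hvF (fun l => (b l).1) (fun l => (b l).2)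
      have h3 : ∑ l, v l * a l ≡ ∑ l, v l * S.X (b l).1 (b l).2 [ZMOD p] :=
        Int.ModEq.sum fun l _ => (hb l ▸ (Int.mod_modEq _ _).of_dvd
          (Int.natCast_dvd_natCast.mpr (S.dv p hp))).mul_left _
      obtain ⟨j, hj⟩ := (Int.modEq_zero_iff_dvd).mp (h3.trans ((Int.modEq_zero_iff_dvd).mpr hd))
      obtain ⟨k, hk⟩ := S.dv p hp
      have hp0 : 0 < p := Nat.pos_of_mul_pos_right (hk ▸ S.pos)
      have h4 : |∑ l, v l * a l| ≤ V * S.n := by
        have hV' : ∑ i, |v i| ≤ (V : ℤ) := by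
          refine (sum_le_sum fun i _ => hv i).trans ?_
          rw [sum_const, card_univ, Fintype.card_fin, hV]
          push_cast
          rw [nsmul_eq_mul]
        refine le_trans ?_ (mul_le_mul_of_nonneg_right hV' hn.le)
        rw [sum_mul]
        refine (abs_sum_le_sum_abs _ _).trans (sum_le_sum fun l _ => ?_)
        rw [abs_mul]
        refine mul_le_mul_of_nonneg_left ?_ (abs_nonneg _)
        rw [← hb l, abs_of_nonneg (Int.emod_nonneg _ hn.ne')]
        exact (Int.emod_lt_of_pos _ hn).le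
      refine mem_biUnion.mpr ⟨p, hp, mem_image.mpr ⟨j, mem_Icc.mpr (abs_le.mp ?_), hj.symm⟩⟩
      rw [hj, hk, abs_mul, abs_of_nonneg (by positivity)] at h4
      rw [hk, Nat.mul_div_cancel_left _ hp0]
      have hp0' : (0 : ℤ) < p := by exact_mod_cast hp0
      refine le_of_mul_le_mul_left ?_ hp0'
      push_cast at h4
      linarith
    have h2 := (card_le_card h1).trans card_biUnion_le
    have h3 : ∀ p ∈ S.P, (((Icc (-(V * (S.n / p : ℕ) : ℤ)) (V * (S.n / p : ℕ))).image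
        (fun j => (p : ℤ) * j)).card : ℝ) ≤ (2 * V + 1) * S.n * (1 / p) := by
      intro p hp
      obtain ⟨k, hk⟩ := S.dv p hp
      have hp0 : 0 < p := Nat.pos_of_mul_pos_right (hk ▸ S.pos)
      have hk0 : 0 < k := Nat.pos_of_mul_pos_left (hk ▸ S.pos)
      rw [hk, Nat.mul_div_cancel_left _ hp0]
      have h4 : ((Icc (-(V * k : ℤ)) (V * k)).image (fun j => (p : ℤ) * j)).card ≤
          (2 * V + 1) * k := by
        refine card_image_le.trans ?_
        rw [Int.card_Icc, Int.toNat_le]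
        push_cast
        have : (1 : ℤ) ≤ k := by exact_mod_cast hk0
        linarith
      have h5 : ((2 * V + 1) * ((p * k : ℕ) : ℝ) * (1 / p)) = (((2 * V + 1) * k : ℕ) : ℝ) := by
        push_cast; field_simp
      rw [h5]
      exact_mod_cast h4
    have h4 := sum_le_sum h3
    rw [← mul_sum, ← Nat.cast_sum] at h4
    have hn' : (0 : ℝ) < S.n := by exact_mod_cast S.pos
    have h5 : (2 * V + 1 : ℝ) * S.n * ∑ p ∈ S.P, (1 / p : ℝ) <
        (2 * V + 1) * S.n * (1 / ((C + 1) * (2 * V + 1))) :=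
      mul_lt_mul_of_pos_left S.sm (by positivity)
    have h6 : (2 * V + 1 : ℝ) * S.n * (1 / ((C + 1) * (2 * V + 1))) = S.n / (C + 1) := by
      field_simp
    rw [h6] at h5
    have h7 : ((img v A).card : ℝ) < S.n / (C + 1) :=
      lt_of_le_of_lt (by exact_mod_cast h2) (lt_of_le_of_lt h4 h5)
    rw [lt_div_iff₀ (by positivity)] at h7
    have h8 : (C : ℝ) * (img v A).card < S.n := by
      have : (0 : ℝ) ≤ (img v A).card := by positivity
      nlinarith
    exact_mod_cast h8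
  · have h1 : (Ico (0 : ℤ) S.n).card = S.n := by simp
    rw [← h1]
    have h2 : ∀ t, ∑ i, u i * (S.X t i % S.n) ≡ t [ZMOD S.n] := fun t =>
      (Int.ModEq.sum fun i _ => (Int.mod_modEq _ _).mul_left _).trans (S.fu t)
    refine card_le_card_of_injOn (fun t => ∑ i, u i * (S.X t i % S.n)) (fun t ht => ?_)
      fun t ht t' ht' e => ?_
    · exact mem_coe.mpr (mem_image.mpr ⟨fun i => S.X t i % S.n, Fintype.mem_piFinset.mpr fun i =>
        mem_image.mpr ⟨(t, i), mem_product.mpr ⟨ht, mem_univ _⟩, rfl⟩, rfl⟩)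
    · have h3 : t ≡ t' [ZMOD S.n] := (h2 t).symm.trans (Int.ModEq.trans (by
        simp only at e; rw [e]) (h2 t'))
      obtain ⟨a1, a2⟩ := mem_Ico.mp ht
      obtain ⟨b1, b2⟩ := mem_Ico.mp ht'
      unfold Int.ModEq at h3
      rwa [Int.emod_eq_of_lt a1 a2, Int.emod_eq_of_lt b1 b2] at h3

end Pool.Agent.Results.MP_07add5_co.OneSetForAllForms
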